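import Mathlib
import Pool.Agent.Helper91.Ov.Hit

/-!
# Formulas, reads and rank
-/

set_option autoImplicit false
set_option linter.unusedSectionVars false

namespace Pool.Agent.Helper91.Rk

open MvPolynomial
open Pool.Agent.Helper91.Ov (Supp RP)

variable {n : ℕ}

/-- Formulas whose leaves are arbitrary polynomials. -/
inductive Fml (n : ℕ) : Type
  | leaf (f : MvPolynomial (Fin n) ℂ) : Fml n
  | add (φ ψ : Fml n) : Fml n
  | mul (φ ψ : Fml n) : Fml n

namespace Fml

/-- The polynomial computed by a formula. -/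
noncomputable def val : Fml n → MvPolynomial (Fin n) ℂ
  | leaf f => f
  | add φ ψ => val φ + val ψ
  | mul φ ψ => val φ * val ψ

open Classical in
/-- The number of leaves in which the variable `v` occurs. -/
noncomputable def reads : Fml n → Fin n → ℕ
  | leaf f, v => if v ∈ f.vars then 1 else 0
  | add φ ψ, v => reads φ v + reads ψ v
  | mul φ ψ, v => reads φ v + reads ψ v

/-- No common variables. -/
def Disj (φ ψ : Fml n) : Prop := ∀ v, reads φ v = 0 ∨ reads ψ v = 0

open Classical in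
/-- The rank. -/
noncomputable def rank : Fml n → ℕ
  | leaf _ => 0
  | add φ ψ => if Disj φ ψ then max (rank φ) (rank ψ) else 2 * (max (rank φ) (rank ψ) / 2) + 1
  | mul φ ψ => if rank φ = rank ψ ∧ Odd (rank φ) then rank φ + 1 else max (rank φ) (rank ψ)

/-- Every leaf has at most `b` variables. -/
def Loc (b : ℕ) : Fml n → Prop
  | leaf f => f.vars.card ≤ b
  | add φ ψ => Loc b φ ∧ Loc b ψ
  | mul φ ψ => Loc b φ ∧ Loc b ψ

/-- Read-`k` formulas of rank at most `r` whose leaves have at most `b` variables. -/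
def Cl (k b r : ℕ) (φ : Fml n) : Prop := Loc b φ ∧ (∀ v, reads φ v ≤ k) ∧ rank φ ≤ r

theorem reads_add (φ ψ : Fml n) (v : Fin n) : reads (add φ ψ) v = reads φ v + reads ψ v := by
  rw [reads]

theorem reads_mul (φ ψ : Fml n) (v : Fin n) : reads (mul φ ψ) v = reads φ v + reads ψ v := by
  rw [reads]

theorem reads_leaf_const (c : ℂ) (v : Fin n) : reads (leaf (C c)) v = 0 := by
  classical
  rw [reads, vars_C, if_neg (Finset.notMem_empty v)]

theorem Disj.mono {φ ψ φ' ψ' : Fml n} (h : Disj φ ψ) (h1 : ∀ v, reads φ' v ≤ reads φ v)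
    (h2 : ∀ v, reads ψ' v ≤ reads ψ v) : Disj φ' ψ' := by
  intro v
  rcases h v with h | h
  · exact Or.inl (Nat.le_zero.1 (h ▸ h1 v))
  · exact Or.inr (Nat.le_zero.1 (h ▸ h2 v))

theorem rank_add_le {φ ψ φ' ψ' : Fml n} (h1 : ∀ v, reads φ' v ≤ reads φ v)
    (h2 : ∀ v, reads ψ' v ≤ reads ψ v) (h3 : rank φ' ≤ rank φ) (h4 : rank ψ' ≤ rank ψ) :
    rank (add φ' ψ') ≤ rank (add φ ψ) := by
  rw [rank, rank]
  have h5 : max (rank φ') (rank ψ') ≤ max (rank φ) (rank ψ) := max_le_max h3 h4
  split_ifs with h6 h7 h7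
  · exact h5
  · omega
  · exact absurd (h7.mono h1 h2) h6
  · omega

theorem rank_mul_le {φ ψ φ' ψ' : Fml n} (h3 : rank φ' ≤ rank φ) (h4 : rank ψ' ≤ rank ψ) :
    rank (mul φ' ψ') ≤ rank (mul φ ψ) := by
  rw [rank, rank]
  split_ifs with h6 h7 h7
  · omega
  · obtain ⟨h8, h9⟩ := h6
    by_contra hcon
    have h10 : rank φ = rank φ' := by omega
    have h11 : rank ψ = rank φ' := by omega
    exact h7 ⟨by omega, by rw [h10]; exact h9⟩
  · omega
  · omega

end Fml

end Pool.Agent.Helper91.Rk
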