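import Mathlib
import Pool.Agent.Helper91.Rk.Def

/-!
# Putting variables to zero
-/

set_option autoImplicit false
set_option linter.unusedSectionVars false

namespace Pool.Agent.Helper91.Rk

open MvPolynomial
open Pool.Agent.Helper91.Ov (Supp)

variable {n : ℕ}

theorem notMem_vars_of_pderiv {f : MvPolynomial (Fin n) ℂ} {i : Fin n} (h : pderiv i f = 0) :
    i ∉ f.vars := by
  rw [mem_vars_iff_mem_support]
  rintro ⟨d, hd, hi⟩
  rw [Finsupp.mem_support_iff] at hi
  have h1 := congrArg (coeff (d - Finsupp.single i 1)) h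
  have h2 : d - Finsupp.single i 1 + Finsupp.single i 1 = d :=
    tsub_add_cancel_of_le (by
      rw [Finsupp.single_le_iff]
      omega)
  rw [coeff_pderiv, h2, coeff_zero] at h1
  rcases mul_eq_zero.1 h1 with h3 | h3
  · exact (mem_support_iff.1 hd) h3
  · exact Nat.cast_add_one_ne_zero _ h3

/-- Put the variables of `s` to `0`. -/
noncomputable def zz (s : Finset (Fin n)) : MvPolynomial (Fin n) ℂ →ₐ[ℂ] MvPolynomial (Fin n) ℂ :=
  aeval fun l => if l ∈ s then 0 else X l

theorem supp_vars (f : MvPolynomial (Fin n) ℂ) : Supp f.vars f := mem_supported_vars f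

theorem supp_iff {s : Finset (Fin n)} {f : MvPolynomial (Fin n) ℂ} : Supp s f ↔ f.vars ⊆ s := by
  rw [Supp, mem_supported, Finset.coe_subset]

theorem vars_zz (s : Finset (Fin n)) (f : MvPolynomial (Fin n) ℂ) :
    (zz s f).vars ⊆ f.vars \ s := by
  rw [← supp_iff]
  have h1 : supported ℂ (f.vars : Set (Fin n)) ≤
      (supported ℂ ((f.vars \ s : Finset (Fin n)) : Set (Fin n))).comap (zz s) := by
    apply Algebra.adjoin_le
    rintro _ ⟨i, hi, rfl⟩
    change zz s (X i) ∈ supported ℂ ((f.vars \ s : Finset (Fin n)) : Set (Fin n))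
    rw [zz, aeval_X]
    by_cases h : i ∈ s
    · rw [if_pos h]
      exact zero_mem _
    · rw [if_neg h]
      exact X_mem_supported.2 (Finset.mem_coe.2 (Finset.mem_sdiff.2 ⟨Finset.mem_coe.1 hi, h⟩))
  exact h1 (supp_vars f)

theorem zz_eq_self {s : Finset (Fin n)} {f : MvPolynomial (Fin n) ℂ}
    (h : ∀ i ∈ s, pderiv i f = 0) : zz s f = f := by
  have h1 := (supp_vars f).congr (zz s) (AlgHom.id ℂ (MvPolynomial (Fin n) ℂ)) (by
    intro i hi
    rw [zz, aeval_X, if_neg (fun his => notMem_vars_of_pderiv (h i his) hi), AlgHom.id_apply])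
  exact h1

namespace Fml

/-- Put the variables of `s` to `0`. -/
noncomputable def kill (s : Finset (Fin n)) : Fml n → Fml n
  | leaf f => leaf (zz s f)
  | add φ ψ => add (kill s φ) (kill s ψ)
  | mul φ ψ => mul (kill s φ) (kill s ψ)

theorem val_kill (s : Finset (Fin n)) (φ : Fml n) : (kill s φ).val = zz s φ.val := by
  induction φ with
  | leaf f => rw [kill, val, val]
  | add φ ψ h1 h2 => rw [kill, val, val, h1, h2, map_add]
  | mul φ ψ h1 h2 => rw [kill, val, val, h1, h2, map_mul]

theorem reads_kill (s : Finset (Fin n)) (φ : Fml n) (v : Fin n) :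
    reads (kill s φ) v ≤ reads φ v := by
  induction φ with
  | leaf f =>
    rw [kill, reads, reads]
    split_ifs with h1 h2 h2
    · exact le_rfl
    · exact absurd (Finset.mem_sdiff.1 (vars_zz s f h1)).1 h2
    · exact Nat.zero_le _
    · exact le_rfl
  | add φ ψ h1 h2 =>
    rw [kill, reads, reads]
    exact Nat.add_le_add h1 h2
  | mul φ ψ h1 h2 =>
    rw [kill, reads, reads]
    exact Nat.add_le_add h1 h2

theorem reads_kill_mem {s : Finset (Fin n)} (φ : Fml n) {v : Fin n} (hv : v ∈ s) :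
    reads (kill s φ) v = 0 := by
  induction φ with
  | leaf f =>
    rw [kill, reads, if_neg]
    exact fun h1 => (Finset.mem_sdiff.1 (vars_zz s f h1)).2 hv
  | add φ ψ h1 h2 => rw [kill, reads, h1, h2]
  | mul φ ψ h1 h2 => rw [kill, reads, h1, h2]

theorem loc_kill {b : ℕ} (s : Finset (Fin n)) {φ : Fml n} (h : Loc b φ) : Loc b (kill s φ) := by
  induction φ with
  | leaf f =>
    rw [kill, Loc]
    rw [Loc] at h
    exact (Finset.card_le_card ((vars_zz s f).trans Finset.sdiff_subset)).trans h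
  | add φ ψ h1 h2 =>
    rw [Loc] at h
    rw [kill, Loc]
    exact ⟨h1 h.1, h2 h.2⟩
  | mul φ ψ h1 h2 =>
    rw [Loc] at h
    rw [kill, Loc]
    exact ⟨h1 h.1, h2 h.2⟩

theorem rank_kill (s : Finset (Fin n)) (φ : Fml n) : rank (kill s φ) ≤ rank φ := by
  induction φ with
  | leaf f => rw [kill, rank, rank]
  | add φ ψ h1 h2 =>
    rw [kill]
    exact rank_add_le (reads_kill s φ) (reads_kill s ψ) h1 h2
  | mul φ ψ h1 h2 =>
    rw [kill]
    exact rank_mul_le h1 h2

theorem supp_val (φ : Fml n) : Supp (Finset.univ.filter fun v => reads φ v ≠ 0) φ.val := by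
  induction φ with
  | leaf f =>
    rw [val, supp_iff]
    intro v hv
    rw [Finset.mem_filter, reads, if_pos hv]
    exact ⟨Finset.mem_univ v, one_ne_zero⟩
  | add φ ψ h1 h2 =>
    rw [val]
    refine Supp.add (h1.mono ?_) (h2.mono ?_)
    · intro v hv
      rw [Finset.mem_filter] at hv ⊢
      rw [reads]
      exact ⟨hv.1, by omega⟩
    · intro v hv
      rw [Finset.mem_filter] at hv ⊢
      rw [reads]
      exact ⟨hv.1, by omega⟩
  | mul φ ψ h1 h2 =>
    rw [val]
    refine Supp.mul (h1.mono ?_) (h2.mono ?_)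
    · intro v hv
      rw [Finset.mem_filter] at hv ⊢
      rw [reads]
      exact ⟨hv.1, by omega⟩
    · intro v hv
      rw [Finset.mem_filter] at hv ⊢
      rw [reads]
      exact ⟨hv.1, by omega⟩

theorem pderiv_val {φ : Fml n} {v : Fin n} (h : reads φ v = 0) : pderiv v φ.val = 0 := by
  apply (supp_val φ).pderiv_eq_zero
  rw [Finset.mem_filter]
  exact fun h1 => h1.2 h

end Fml

end Pool.Agent.Helper91.Rk
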