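import Mathlib
import Pool.Agent.Helper91.RO.Faith
import Pool.Agent.Helper91.Ov.Hit
import Pool.Agent.Helper91.Rk.Kill

/-!
# Derivatives of representations, changes of one coordinate
-/

set_option autoImplicit false
set_option linter.unusedSectionVars false

namespace Pool.Agent.Helper91.Rk

open MvPolynomial
open Pool.Agent.Helper28.D4 (G map_G)
open Pool.Agent.Helper91.Ov
open Pool.Agent.Helper91.RO (res EA ev pderiv_res EA_res EA_comm ev_EA EA_C ev_res)

variable {n : ℕ} {F : Type*} [Field F] [Algebra ℂ F] (p : Fin n → F)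

theorem pderiv_EA {u v : Fin n} (huv : v ≠ u) (g : MvPolynomial (Fin n) F) :
    EA p {v} (MvPolynomial.pderiv u g) = MvPolynomial.pderiv u (EA p {v} g) := by
  induction g using MvPolynomial.induction_on with
  | C a => rw [pderiv_C, map_zero, EA_C, pderiv_C]
  | add f g hf hg => rw [map_add, map_add, hf, hg, map_add, map_add]
  | mul_X f l hf =>
    rw [map_mul (EA p {v}), Derivation.leibniz, Derivation.leibniz, ← hf, map_add, smul_eq_mul,
      smul_eq_mul, smul_eq_mul, smul_eq_mul, map_mul, map_mul]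
    congr 2
    by_cases hlv : l = v
    · subst hlv
      rw [pderiv_X_of_ne huv, map_zero, EA, aeval_X, if_pos (Finset.mem_singleton_self l),
        pderiv_C]
    · rw [EA, aeval_X, if_neg (fun h => hlv (Finset.mem_singleton.1 h))]
      by_cases hlu : l = u
      · subst hlu
        rw [pderiv_X_self, map_one]
      · rw [pderiv_X_of_ne hlu, map_zero]

section

variable {ω : Type} [Fintype ω] [DecidableEq ω]

theorem map_pderiv_mul (u : Fin n) (A B : Matrix ω ω (MvPolynomial (Fin n) F)) :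
    (A * B).map (MvPolynomial.pderiv u) =
      A.map (MvPolynomial.pderiv u) * B + A * B.map (MvPolynomial.pderiv u) := by
  ext1 i j
  rw [Matrix.map_apply, Matrix.add_apply, Matrix.mul_apply, Matrix.mul_apply, Matrix.mul_apply,
    map_sum, ← Finset.sum_add_distrib]
  apply Finset.sum_congr rfl
  intro x _
  rw [Derivation.leibniz, smul_eq_mul, smul_eq_mul, Matrix.map_apply, Matrix.map_apply]
  ring

theorem prod_dual (u : Fin n) (M : Fin n → Matrix ω ω (MvPolynomial (Fin n) F))
    (L : List (Fin n)) :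
    (L.map fun v => Matrix.fromBlocks (M v) ((M v).map (MvPolynomial.pderiv u)) 0 (M v)).prod =
      Matrix.fromBlocks (L.map M).prod ((L.map M).prod.map (MvPolynomial.pderiv u)) 0
        (L.map M).prod := by
  induction L with
  | nil =>
    rw [List.map_nil, List.map_nil, List.prod_nil, List.prod_nil]
    have h : (1 : Matrix ω ω (MvPolynomial (Fin n) F)).map (MvPolynomial.pderiv u) = 0 := by
      ext1 i j
      rw [Matrix.map_apply, Matrix.one_apply, Matrix.zero_apply]
      split_ifs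
      · exact pderiv_one
      · exact map_zero _
    rw [h, Matrix.fromBlocks_one]
  | cons v L ih =>
    rw [List.map_cons, List.map_cons, List.prod_cons, List.prod_cons, ih,
      Matrix.fromBlocks_multiply, map_pderiv_mul]
    simp only [Matrix.mul_zero, Matrix.zero_mul, add_zero, zero_add]
    rw [add_comm (M v * _)]

end

/-- Derivatives with respect to other variables. -/
theorem Rep.pderiv {w : ℕ} {L : List (Fin n)} {R : MvPolynomial (Fin n) F} (h : Rep p w L R)
    {u : Fin n} (hu : u ∉ L) : Rep p (2 * w) L (MvPolynomial.pderiv u R) := by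
  obtain ⟨ω, i1, i2, M, a, b, h0, h1, h2, h3, h4, h5⟩ := h
  have hne : ∀ v ∈ L, v ≠ u := fun v hv h => hu (h ▸ hv)
  refine ⟨ω ⊕ ω, inferInstance, inferInstance,
    fun v => Matrix.fromBlocks (M v) ((M v).map (MvPolynomial.pderiv u)) 0 (M v),
    Sum.elim a fun α => MvPolynomial.pderiv u (a α),
    Sum.elim (fun α => MvPolynomial.pderiv u (b α)) b, ?_, ?_, ?_, ?_, ?_, ?_⟩
  · rw [Fintype.card_sum]
    omega
  · intro x hx
    rw [Matrix.det_fromBlocks_zero₂₁, map_mul]
    exact mul_ne_zero (h1 x hx) (h1 x hx)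
  · intro x hx v hv hvx
    rw [Matrix.fromBlocks_map, h2 x hx v hv hvx, Matrix.map_zero _ (map_zero _)]
    congr 1
    ext1 i j
    rw [Matrix.map_apply, Matrix.map_apply, pderiv_EA p (hne v hv)]
    have e := congrFun (congrFun (h2 x hx v hv hvx) i) j
    rw [Matrix.map_apply] at e
    rw [e]
  · rintro v hv (α | α)
    · exact h3 v hv α
    · change EA p {v} (MvPolynomial.pderiv u (a α)) = MvPolynomial.pderiv u (a α)
      rw [pderiv_EA p (hne v hv), h3 v hv]
  · rintro v hv (α | α)
    · change EA p {v} (MvPolynomial.pderiv u (b α)) = MvPolynomial.pderiv u (b α)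
      rw [pderiv_EA p (hne v hv), h4 v hv]
    · exact h4 v hv α
  · rw [prod_dual, h5, Matrix.fromBlocks_mulVec, sumElim_dotProduct_sumElim]
    simp only [dotProduct, Matrix.mulVec, map_sum, Derivation.leibniz, smul_eq_mul,
      Matrix.map_apply, Finset.mul_sum, Pi.add_apply, Matrix.zero_apply, zero_mul,
      Finset.sum_const_zero, zero_add, Sum.elim_inl, Sum.elim_inr, Function.comp_apply]
    rw [← Finset.sum_add_distrib]
    apply Finset.sum_congr rfl
    intro i _
    rw [← Finset.sum_add_distrib, Finset.mul_sum, ← Finset.sum_add_distrib]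
    apply Finset.sum_congr rfl
    intro j _
    ring

/-- Specialising another variable. -/
theorem Rep.EA {w : ℕ} {L : List (Fin n)} {R : MvPolynomial (Fin n) F} (h : Rep p w L R)
    (u : Fin n) : Rep p w L (EA p {u} R) := by
  obtain ⟨ω, i1, i2, M, a, b, h0, h1, h2, h3, h4, h5⟩ := h
  refine ⟨ω, i1, i2, fun v => (M v).map (RO.EA p {u}), fun α => RO.EA p {u} (a α),
    fun α => RO.EA p {u} (b α), h0, ?_, ?_, ?_, ?_, ?_⟩
  · intro x hx
    have e : ((M x).map (RO.EA p {u})).det = RO.EA p {u} (M x).det :=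
      (AlgHom.map_det (RO.EA p {u}) (M x)).symm
    rw [e, ev_EA]
    exact h1 x hx
  · intro x hx v hv hvx
    ext1 i j
    have e := congrFun (congrFun (h2 x hx v hv hvx) i) j
    rw [Matrix.map_apply] at e
    change RO.EA p {v} (RO.EA p {u} (M x i j)) = RO.EA p {u} (M x i j)
    rw [EA_comm, e]
  · intro v hv α
    rw [EA_comm, h3 v hv]
  · intro v hv α
    rw [EA_comm, h4 v hv]
  · have e : (L.map fun v => (M v).map (RO.EA p {u})).prod =
        (L.map M).prod.map (RO.EA p {u}) := by
      have := map_list_prod ((RO.EA p {u}).toRingHom.mapMatrix (m := ω)) (L.map M)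
      rw [List.map_map] at this
      exact this.symm
    rw [e, h5]
    simp only [dotProduct, Matrix.mulVec, map_sum, map_mul, Matrix.map_apply]

/-- Derivatives. -/
theorem RP.pderiv {w : ℕ} {β : ℕ → ℕ} {f : MvPolynomial (Fin n) ℂ} (h : RP p w β f)
    (u : Fin n) : RP p (2 * w) (fun N => β N + 1) (MvPolynomial.pderiv u f) := by
  classical
  intro S N L hL hN
  have hnd := nodup_of_lt hL
  have h1 : β N ≤ (L.erase u).length := by
    have h2 : L.length - 1 ≤ (L.erase u).length := List.le_length_erase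
    have h3 : β N + 1 ≤ L.length := hN
    omega
  obtain ⟨L', h2, h3, h4⟩ := h (insert u S) N (L.erase u) (hL.sublist List.erase_sublist) h1
  have hu : u ∉ L' := fun h5 => (List.Nodup.not_mem_erase hnd) (h2.subset h5)
  refine ⟨L', h2.trans List.erase_sublist, h3, ?_⟩
  have h5 := Rep.pderiv p h4 hu
  rw [pderiv_res p _ (Finset.mem_insert_self u S)] at h5
  by_cases hS : u ∈ S
  · rwa [Finset.insert_eq_of_mem hS] at h5
  · have h6 := Rep.EA p h5 u
    rwa [EA_res, Finset.erase_insert hS] at h6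

theorem RP.add {w₁ w₂ : ℕ} {β₁ β₂ : ℕ → ℕ} {f g : MvPolynomial (Fin n) ℂ} (hf : RP p w₁ β₁ f)
    (hg : RP p w₂ β₂ g) : RP p (w₁ + w₂) (fun N => β₁ (β₂ N)) (f + g) := by
  intro S N L hL hN
  obtain ⟨L1, a1, a2, a3⟩ := hf S (β₂ N) L hL hN
  obtain ⟨L2, b1, b2, b3⟩ := hg S N L1 (hL.sublist a1) a2.ge
  have hL1 : L1.Nodup := nodup_of_lt (hL.sublist a1)
  refine ⟨L2, b1.trans a1, b2, ?_⟩
  rw [map_add]
  exact (a3.sublist p hL1 b1).add p b3

theorem RP.mul {w₁ w₂ : ℕ} {β₁ β₂ : ℕ → ℕ} {f g : MvPolynomial (Fin n) ℂ} (hf : RP p w₁ β₁ f)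
    (hg : RP p w₂ β₂ g) : RP p (w₁ * w₂) (fun N => β₁ (β₂ N)) (f * g) := by
  intro S N L hL hN
  obtain ⟨L1, a1, a2, a3⟩ := hf S (β₂ N) L hL hN
  obtain ⟨L2, b1, b2, b3⟩ := hg S N L1 (hL.sublist a1) a2.ge
  have hL1 : L1.Nodup := nodup_of_lt (hL.sublist a1)
  refine ⟨L2, b1.trans a1, b2, ?_⟩
  rw [map_mul]
  exact (a3.sublist p hL1 b1).mul p b3

/-! ### Monotonicity -/

theorem aeval_gp_mono {m m' : ℕ} (hm : m ≤ m') {f : MvPolynomial (Fin n) ℂ}
    (h : aeval (gp n m) f ≠ 0) : aeval (gp n m') f ≠ 0 := by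
  obtain ⟨K, rfl⟩ := Nat.exists_eq_add_of_le' hm
  have h1 := pF_ne_zero h
  rw [← ev_res (pF n m) ∅ f] at h1
  refine gp_ne_zero_of_res (K := K) ∅ (by rw [Finset.card_empty]; exact Nat.zero_le K)
    (fun j : Fin m => zK j) (fun j => wK j) ?_
  rw [← pF_eq]
  intro h0
  rw [h0, map_zero] at h1
  exact h1 rfl

theorem hit_iff {m : ℕ} {f : MvPolynomial (Fin n) ℂ} : Hit m f ↔
    (f ≠ C (MvPolynomial.constantCoeff f) →
      aeval (gp n m) (f - C (MvPolynomial.constantCoeff f)) ≠ 0) := by
  rw [map_sub, aeval_C, MvPolynomial.algebraMap_eq, sub_ne_zero, Hit]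
  tauto

theorem Hit.mono {m m' : ℕ} (hm : m ≤ m') {f : MvPolynomial (Fin n) ℂ} (h : Hit m f) :
    Hit m' f := by
  rw [hit_iff] at h ⊢
  exact fun h1 => aeval_gp_mono hm (h h1)

/-- If a derivative does not vanish on the generator, then the polynomial is nonconstant after
one more change. -/
theorem hit_of_pderiv {m : ℕ} {f : MvPolynomial (Fin n) ℂ} {i : Fin n}
    (h : aeval (gp n m) (MvPolynomial.pderiv i f) ≠ 0) : Hit (m + 1) f := by
  rw [hit_iff]
  intro _
  rw [add_comm m 1]
  refine gp_ne_zero_of_res (K := 1) {i} (Finset.card_singleton i).le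
    (fun j : Fin m => zK j) (fun j => wK j) ?_
  rw [← pF_eq]
  intro h0
  have h1 := pF_ne_zero h
  rw [← ev_res (pF n m) {i}, ← pderiv_res _ _ (Finset.mem_singleton_self i)] at h1
  apply h1
  have h2 : res (pF n m) {i} f = C (algebraMap ℂ (KP m) (MvPolynomial.constantCoeff f)) := by
    rw [map_sub, sub_eq_zero] at h0
    rw [h0, res, aeval_C]
    rfl
  rw [h2, pderiv_C, map_zero]

end Pool.Agent.Helper91.Rk
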