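import Mathlib
import Pool.Agent.Helper91.Rk.Near

/-!
# The generator hits all read-`k` formulas of bounded rank
-/

set_option autoImplicit false
set_option linter.unusedSectionVars false

namespace Pool.Agent.Helper91.Rk

open MvPolynomial
open Pool.Agent.Helper91.Ov
open Pool.Agent.Helper91.RO (res EA ev)

variable {n : ℕ}

theorem hit_mul {m : ℕ} {f g : MvPolynomial (Fin n) ℂ} (ihf : Hit m f) (ihg : Hit m g) :
    Hit m (f * g) := by
  rcases ihf with h1 | h1
  · rcases ihg with h2 | h2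
    · left
      rw [map_mul, map_mul, ← h1, ← h2]
    · rcases eq_or_ne (MvPolynomial.constantCoeff f) 0 with h4 | h4
      · left
        rw [h4, C_0] at h1
        rw [h1, zero_mul, map_zero, map_zero]
      · right
        intro h3
        apply h2
        rw [h1, map_mul, map_mul, map_mul, constantCoeff_C, aeval_C,
          MvPolynomial.algebraMap_eq] at h3
        exact mul_left_cancel₀ (C_ne_zero.2 h4) h3
  · rcases ihg with h2 | h2
    · rcases eq_or_ne (MvPolynomial.constantCoeff g) 0 with h4 | h4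
      · left
        rw [h4, C_0] at h2
        rw [h2, mul_zero, map_zero, map_zero]
      · right
        intro h3
        apply h1
        rw [h2, map_mul, map_mul, map_mul, constantCoeff_C, aeval_C,
          MvPolynomial.algebraMap_eq] at h3
        exact mul_right_cancel₀ (C_ne_zero.2 h4) h3
    · right
      intro h3
      rw [map_mul (aeval (gp n m)), map_mul MvPolynomial.constantCoeff] at h3
      have hcf := constantCoeff_gp (m := m) f
      have hcg := constantCoeff_gp (m := m) g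
      by_cases h4 : MvPolynomial.constantCoeff f * MvPolynomial.constantCoeff g = 0
      · rw [h4, map_zero] at h3
        rcases mul_eq_zero.1 h3 with h5 | h5
        · rw [h5, map_zero] at hcf
          apply h1
          rw [h5, ← hcf, map_zero]
        · rw [h5, map_zero] at hcg
          apply h2
          rw [h5, ← hcg, map_zero]
      · have hu : IsUnit (aeval (gp n m) f) := by
          apply isUnit_of_mul_isUnit_left (y := aeval (gp n m) g)
          rw [h3]
          exact (isUnit_iff_ne_zero.2 h4).map C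
        obtain ⟨r, _, hr⟩ := MvPolynomial.isUnit_iff_eq_C_of_isReduced.1 hu
        apply h1
        rw [hr, constantCoeff_C] at hcf
        rw [hr, hcf]

theorem hit_add {m : ℕ} {s t : Finset (Fin n)} (hst : Disjoint s t)
    {f g : MvPolynomial (Fin n) ℂ} (hfs : Supp s f) (hgt : Supp t g) (ihf : Hit m f)
    (ihg : Hit m g) : Hit m (f + g) :=
  clo_hit (B := fun s f => Supp s f ∧ Hit m f) (fun _ _ h => h.1) (fun _ _ h => h.2)
    (Clo.add hst (Clo.base ⟨hfs, ihf⟩) (Clo.base ⟨hgt, ihg⟩))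

theorem RP.weaken {F : Type*} [Field F] [Algebra ℂ F] {p : Fin n → F} {w w' : ℕ} {β : ℕ → ℕ}
    {f : MvPolynomial (Fin n) ℂ} (h : RP p w β f) (hw : w ≤ w') : RP p w' β f := by
  intro S N L hL hN
  obtain ⟨L', h1, h2, h3⟩ := h S N L hL hN
  exact ⟨L', h1, h2, h3.weaken p hw⟩

namespace Fml

theorem Cl.left_add {k b r : ℕ} {φ ψ : Fml n} (h : Cl k b r (add φ ψ)) : Cl k b r φ := by
  obtain ⟨h1, h2, h3⟩ := h
  rw [Loc] at h1
  rw [rank] at h3
  refine ⟨h1.1, fun v => ?_, ?_⟩
  · have := h2 v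
    rw [reads] at this
    omega
  · split_ifs at h3 <;> omega

theorem Cl.right_add {k b r : ℕ} {φ ψ : Fml n} (h : Cl k b r (add φ ψ)) : Cl k b r ψ := by
  obtain ⟨h1, h2, h3⟩ := h
  rw [Loc] at h1
  rw [rank] at h3
  refine ⟨h1.2, fun v => ?_, ?_⟩
  · have := h2 v
    rw [reads] at this
    omega
  · split_ifs at h3 <;> omega

theorem Cl.left_mul {k b r : ℕ} {φ ψ : Fml n} (h : Cl k b r (mul φ ψ)) : Cl k b r φ := by
  obtain ⟨h1, h2, h3⟩ := h
  rw [Loc] at h1
  rw [rank] at h3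
  refine ⟨h1.1, fun v => ?_, ?_⟩
  · have := h2 v
    rw [reads] at this
    omega
  · split_ifs at h3 <;> omega

theorem Cl.right_mul {k b r : ℕ} {φ ψ : Fml n} (h : Cl k b r (mul φ ψ)) : Cl k b r ψ := by
  obtain ⟨h1, h2, h3⟩ := h
  rw [Loc] at h1
  rw [rank] at h3
  refine ⟨h1.2, fun v => ?_, ?_⟩
  · have := h2 v
    rw [reads] at this
    omega
  · split_ifs at h3 <;> omega

/-- A formula which does not depend on its full variables has a read-`k` equivalent. -/
theorem exists_low {k b r : ℕ} {φ : Fml n} (h : Cl (k + 1) b r φ)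
    (h0 : ¬ ∃ i, reads φ i = k + 1 ∧ MvPolynomial.pderiv i φ.val ≠ 0) :
    ∃ ψ : Fml n, Cl k b r ψ ∧ ψ.val = φ.val := by
  classical
  obtain ⟨h1, h2, h3⟩ := h
  refine ⟨kill (Finset.univ.filter fun i => reads φ i = k + 1) φ, ⟨loc_kill _ h1, ?_,
    (rank_kill _ φ).trans h3⟩, ?_⟩
  · intro v
    by_cases hv : reads φ v = k + 1
    · rw [reads_kill_mem φ (Finset.mem_filter.2 ⟨Finset.mem_univ v, hv⟩)]
      exact Nat.zero_le k
    · have := reads_kill (Finset.univ.filter fun i => reads φ i = k + 1) φ v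
      have := h2 v
      omega
  · rw [val_kill]
    apply zz_eq_self
    intro i hi
    by_contra hne
    exact h0 ⟨i, (Finset.mem_filter.1 hi).2, hne⟩

theorem val_const {φ : Fml n} (h : ∀ v, reads φ v = 0) :
    φ.val = C (MvPolynomial.constantCoeff φ.val) := by
  have h1 := supp_val φ
  have h2 : (Finset.univ.filter fun v => reads φ v ≠ 0) = ∅ := by
    apply Finset.filter_false_of_mem
    intro v _ hv
    exact hv (h v)
  rw [h2, Supp, Finset.coe_empty, supported_empty, Algebra.mem_bot] at h1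
  obtain ⟨c, hc⟩ := h1
  rw [← hc, MvPolynomial.algebraMap_eq, constantCoeff_C]

end Fml

open Fml

/-- The Ramsey property. -/
def Ram (b : ℕ) (wk : ℕ → ℕ) (bk : ℕ → ℕ → ℕ) : Prop :=
  ∀ (n : ℕ) (F : Type) [Field F] [Algebra ℂ F] (p : Fin n → F) (k r : ℕ),
    (∀ φ : Fml n, Cl k b r φ → φ.val ≠ 0 → aeval p φ.val ≠ 0) →
    ∀ φ : Fml n, Cl k b r φ → RP p (wk k) (bk k) φ.val

section

variable (b : ℕ) (wk : ℕ → ℕ) (bk : ℕ → ℕ → ℕ)

/-- The number of changes. -/
def TT (k : ℕ) : ℕ := bk k (bk k (2 * (wk k + wk k + wk k * wk k))) + 1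

/-- The number of seeds at even rank. -/
def AA : ℕ → ℕ → ℕ
  | 0, _ => b
  | k + 1, ρ => AA k ρ + 1 + TT wk bk k + ρ

/-- The number of seeds. -/
def lev (k r : ℕ) : ℕ := AA b wk bk k (r / 2) + r % 2

theorem le_AA (k ρ : ℕ) : b ≤ AA b wk bk k ρ := by
  induction k with
  | zero => rw [AA]
  | succ k ih => rw [AA]; omega

theorem AA_mono (k : ℕ) {ρ ρ' : ℕ} (h : ρ ≤ ρ') : AA b wk bk k ρ ≤ AA b wk bk k ρ' := by
  induction k with
  | zero => rw [AA, AA]
  | succ k ih => rw [AA, AA]; omega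

theorem AA_succ_lt (k : ℕ) {ρ ρ' : ℕ} (h : ρ < ρ') :
    AA b wk bk (k + 1) ρ + 1 ≤ AA b wk bk (k + 1) ρ' := by
  have := AA_mono b wk bk k h.le
  rw [AA, AA]
  omega

theorem lev_even (k ρ : ℕ) : lev b wk bk k (2 * ρ) = AA b wk bk k ρ := by
  rw [lev, Nat.mul_div_cancel_left ρ (by norm_num), Nat.mul_mod_right, add_zero]

theorem lev_odd (k ρ : ℕ) : lev b wk bk k (2 * ρ + 1) = AA b wk bk k ρ + 1 := by
  rw [lev]
  have h1 : (2 * ρ + 1) / 2 = ρ := by omega
  have h2 : (2 * ρ + 1) % 2 = 1 := by omega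
  rw [h1, h2]

theorem lev_mono (k : ℕ) {r r' : ℕ} (h : r ≤ r') :
    lev b wk bk (k + 1) r ≤ lev b wk bk (k + 1) r' := by
  rw [lev, lev]
  rcases Nat.lt_or_ge (r / 2) (r' / 2) with h1 | h1
  · have := AA_succ_lt b wk bk k h1
    omega
  · have h2 : r / 2 = r' / 2 := by omega
    rw [h2]
    omega

variable {b wk bk}

theorem near (hR : Ram b wk bk) {k ρ : ℕ}
    (hk : ∀ (r : ℕ) (φ : Fml n), Cl k b r φ → Hit (lev b wk bk k r) φ.val) {φ ψ : Fml n}
    (hφ : Cl k b (2 * ρ + 1) φ) (hψ : Cl k b (2 * ρ + 1) ψ) {f : MvPolynomial (Fin n) ℂ}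
    (hf : f = φ.val + ψ.val ∨ f = φ.val * ψ.val) {i : Fin n}
    (h0 : MvPolynomial.pderiv i f ≠ 0) :
    aeval (gp n (AA b wk bk (k + 1) ρ)) (MvPolynomial.pderiv i f) ≠ 0 := by
  have hp : ∀ φ : Fml n, Cl k b (2 * ρ + 1) φ → φ.val ≠ 0 →
      aeval (pF n (AA b wk bk k ρ + 1)) φ.val ≠ 0 := by
    intro φ hφ h0
    have h1 := hk (2 * ρ + 1) φ hφ
    rw [lev_odd] at h1
    exact pF_ne_zero (h1.ne_zero h0)
  have h1 := hR n _ (pF n (AA b wk bk k ρ + 1)) k (2 * ρ + 1) hp φ hφ
  have h2 := hR n _ (pF n (AA b wk bk k ρ + 1)) k (2 * ρ + 1) hp ψ hψ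
  have h3 : RP (pF n (AA b wk bk k ρ + 1)) (2 * (wk k + wk k + wk k * wk k))
      (fun N => bk k (bk k N) + 1) (MvPolynomial.pderiv i f) := by
    rcases hf with rfl | rfl
    · exact RP.weaken (RP.pderiv _ (RP.add _ h1 h2) i) (by omega)
    · exact RP.weaken (RP.pderiv _ (RP.mul _ h1 h2) i) (by omega)
  obtain ⟨S, -, hS, h4⟩ := h3.bounded_support _ h0 ∅
  rw [Finset.card_empty, zero_add] at hS
  rw [pF_eq] at h4
  have h5 := gp_ne_zero_of_res (K := TT wk bk k) S hS (fun j => zK j) (fun j => wK j) h4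
  refine aeval_gp_mono ?_ h5
  rw [AA]
  omega

theorem main_step (hR : Ram b wk bk) {k : ℕ}
    (hk : ∀ (r : ℕ) (φ : Fml n), Cl k b r φ → Hit (lev b wk bk k r) φ.val) (φ : Fml n) :
    (∀ ρ : ℕ, Cl (k + 1) b (2 * ρ + 1) φ →
      (∃ i, reads φ i = k + 1 ∧ MvPolynomial.pderiv i φ.val ≠ 0) →
      ∃ i, reads φ i = k + 1 ∧
        aeval (gp n (AA b wk bk (k + 1) ρ)) (MvPolynomial.pderiv i φ.val) ≠ 0) ∧
    (∀ r : ℕ, Cl (k + 1) b r φ → Hit (lev b wk bk (k + 1) r) φ.val) := by
  have hlow : ∀ {ρ : ℕ} {φ : Fml n}, Cl k b (2 * ρ + 1) φ →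
      Hit (AA b wk bk (k + 1) ρ) φ.val := by
    intro ρ φ h
    have h1 := hk _ _ h
    rw [lev_odd] at h1
    refine Hit.mono ?_ h1
    rw [AA]
    omega
  induction φ with
  | leaf f =>
    constructor
    · rintro ρ ⟨h1, h2, h3⟩ ⟨i, hi, hne⟩
      refine ⟨i, hi, ?_⟩
      rw [val] at hne ⊢
      rw [Loc] at h1
      have h4 : Leaf b f.vars (MvPolynomial.pderiv i f) :=
        ⟨f.vars, Finset.Subset.refl _, h1, (supp_vars f).pderiv i⟩
      exact aeval_gp_mono (le_AA b wk bk _ ρ) ((leaf_hit h4).ne_zero hne)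
    · rintro r ⟨h1, h2, h3⟩
      rw [Loc] at h1
      rw [val]
      have h4 : Leaf b f.vars f := ⟨f.vars, Finset.Subset.refl _, h1, supp_vars f⟩
      exact Hit.mono ((le_AA b wk bk _ _).trans (Nat.le_add_right _ _)) (leaf_hit h4)
  | add φ ψ ihφ ihψ =>
    have hP : ∀ ρ : ℕ, Cl (k + 1) b (2 * ρ + 1) (add φ ψ) →
      (∃ i, reads (add φ ψ) i = k + 1 ∧ MvPolynomial.pderiv i (add φ ψ).val ≠ 0) →
      ∃ i, reads (add φ ψ) i = k + 1 ∧
        aeval (gp n (AA b wk bk (k + 1) ρ)) (MvPolynomial.pderiv i (add φ ψ).val) ≠ 0 := by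
      rintro ρ hc ⟨i, hi, hne⟩
      by_cases h1 : ∃ i, reads φ i = k + 1 ∧ MvPolynomial.pderiv i φ.val ≠ 0
      · obtain ⟨j, hj, hj2⟩ := ihφ.1 ρ hc.left_add h1
        have h2 := hc.2.1 j
        rw [reads_add] at h2
        refine ⟨j, by rw [reads_add]; omega, ?_⟩
        rw [val, map_add, pderiv_val (φ := ψ) (by omega), add_zero]
        exact hj2
      by_cases h2 : ∃ i, reads ψ i = k + 1 ∧ MvPolynomial.pderiv i ψ.val ≠ 0
      · obtain ⟨j, hj, hj2⟩ := ihψ.1 ρ hc.right_add h2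
        have h2 := hc.2.1 j
        rw [reads_add] at h2
        refine ⟨j, by rw [reads_add]; omega, ?_⟩
        rw [val, map_add, pderiv_val (φ := φ) (by omega), zero_add]
        exact hj2
      obtain ⟨φ', a1, a2⟩ := exists_low hc.left_add h1
      obtain ⟨ψ', b1, b2⟩ := exists_low hc.right_add h2
      refine ⟨i, hi, ?_⟩
      rw [val] at hne ⊢
      exact near hR hk a1 b1 (Or.inl (by rw [a2, b2])) hne
    refine ⟨hP, ?_⟩
    intro r hc
    by_cases hd : Disj φ ψ
    · rw [val]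
      refine hit_add ?_ (supp_val φ) (supp_val ψ) (ihφ.2 r hc.left_add) (ihψ.2 r hc.right_add)
      rw [Finset.disjoint_left]
      intro v hv hv'
      rcases hd v with h | h
      · exact (Finset.mem_filter.1 hv).2 h
      · exact (Finset.mem_filter.1 hv').2 h
    · obtain ⟨h1, h2, h3⟩ := hc
      set ρ := max (rank φ) (rank ψ) / 2 with hρ
      have hr : rank (add φ ψ) = 2 * ρ + 1 := by
        rw [rank, if_neg hd]
      have hc' : Cl (k + 1) b (2 * ρ + 1) (add φ ψ) := ⟨h1, h2, hr.le⟩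
      rw [hr] at h3
      refine Hit.mono (lev_mono b wk bk k h3) ?_
      by_cases h4 : ∃ i, reads (add φ ψ) i = k + 1 ∧ MvPolynomial.pderiv i (add φ ψ).val ≠ 0
      · obtain ⟨j, -, hj⟩ := hP ρ hc' h4
        rw [lev_odd]
        exact hit_of_pderiv hj
      · obtain ⟨φ', a1, a2⟩ := exists_low hc' h4
        rw [← a2, lev_odd]
        exact Hit.mono (Nat.le_succ _) (hlow a1)
  | mul φ ψ ihφ ihψ =>
    constructor
    · rintro ρ hc ⟨i, hi, hne⟩
      have hne' : φ.val ≠ 0 ∧ ψ.val ≠ 0 := by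
        constructor
        · intro h
          rw [val, h, zero_mul, map_zero] at hne
          exact hne rfl
        · intro h
          rw [val, h, mul_zero, map_zero] at hne
          exact hne rfl
      -- using a full variable of one of the factors
      have hleft : (∃ i, reads φ i = k + 1 ∧ MvPolynomial.pderiv i φ.val ≠ 0) →
          Hit (AA b wk bk (k + 1) ρ) ψ.val → ∃ i, reads (mul φ ψ) i = k + 1 ∧
        aeval (gp n (AA b wk bk (k + 1) ρ)) (MvPolynomial.pderiv i (mul φ ψ).val) ≠ 0 := by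
        intro h1 h3
        obtain ⟨j, hj, hj2⟩ := ihφ.1 ρ hc.left_mul h1
        have h2 := hc.2.1 j
        rw [reads_mul] at h2
        refine ⟨j, by rw [reads_mul]; omega, ?_⟩
        rw [val, Derivation.leibniz, pderiv_val (φ := ψ) (by omega), smul_zero, zero_add,
          smul_eq_mul, map_mul]
        exact mul_ne_zero (h3.ne_zero hne'.2) hj2
      have hright : (∃ i, reads ψ i = k + 1 ∧ MvPolynomial.pderiv i ψ.val ≠ 0) →
          Hit (AA b wk bk (k + 1) ρ) φ.val → ∃ i, reads (mul φ ψ) i = k + 1 ∧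
        aeval (gp n (AA b wk bk (k + 1) ρ)) (MvPolynomial.pderiv i (mul φ ψ).val) ≠ 0 := by
        intro h1 h3
        obtain ⟨j, hj, hj2⟩ := ihψ.1 ρ hc.right_mul h1
        have h2 := hc.2.1 j
        rw [reads_mul] at h2
        refine ⟨j, by rw [reads_mul]; omega, ?_⟩
        rw [val, Derivation.leibniz, pderiv_val (φ := φ) (by omega), smul_zero, add_zero,
          smul_eq_mul, map_mul]
        exact mul_ne_zero (h3.ne_zero hne'.1) hj2
      by_cases h1 : ∃ i, reads φ i = k + 1 ∧ MvPolynomial.pderiv i φ.val ≠ 0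
      · by_cases h2 : ∃ i, reads ψ i = k + 1 ∧ MvPolynomial.pderiv i ψ.val ≠ 0
        · by_cases h3 : rank ψ ≤ 2 * ρ
          · have h4 := ihψ.2 (2 * ρ) ⟨hc.right_mul.1, hc.right_mul.2.1, h3⟩
            rw [lev_even] at h4
            exact hleft h1 h4
          · have h5 : rank ψ ≤ 2 * ρ + 1 := hc.right_mul.2.2
            have h6 : rank φ ≤ 2 * ρ := by
              by_contra hcon
              have h7 : rank φ ≤ 2 * ρ + 1 := hc.left_mul.2.2
              have h8 := hc.2.2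
              rw [rank, if_pos ⟨by omega, ⟨ρ, by omega⟩⟩] at h8
              omega
            have h4 := ihφ.2 (2 * ρ) ⟨hc.left_mul.1, hc.left_mul.2.1, h6⟩
            rw [lev_even] at h4
            exact hright h2 h4
        · obtain ⟨ψ', b1, b2⟩ := exists_low hc.right_mul h2
          exact hleft h1 (b2 ▸ hlow b1)
      · obtain ⟨φ', a1, a2⟩ := exists_low hc.left_mul h1
        by_cases h2 : ∃ i, reads ψ i = k + 1 ∧ MvPolynomial.pderiv i ψ.val ≠ 0
        · exact hright h2 (a2 ▸ hlow a1)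
        · obtain ⟨ψ', b1, b2⟩ := exists_low hc.right_mul h2
          refine ⟨i, hi, ?_⟩
          rw [val] at hne ⊢
          exact near hR hk a1 b1 (Or.inr (by rw [a2, b2])) hne
    · intro r hc
      rw [val]
      exact hit_mul (ihφ.2 r hc.left_mul) (ihψ.2 r hc.right_mul)

/-- **The generator hits all read-`k` formulas of rank at most `r`.** -/
theorem cl_hit (hR : Ram b wk bk) : ∀ (k r : ℕ) (φ : Fml n), Cl k b r φ →
    Hit (lev b wk bk k r) φ.val := by
  intro k
  induction k with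
  | zero =>
    intro r φ h
    exact Or.inl (val_const fun v => Nat.le_zero.1 (h.2.1 v))
  | succ k ih =>
    intro r φ h
    exact (main_step hR ih φ).2 r h

theorem cl_hp (hR : Ram b wk bk) {k r : ℕ} (φ : Fml n) (h : Cl k b r φ) (h0 : φ.val ≠ 0) :
    aeval (pF n (lev b wk bk k r)) φ.val ≠ 0 := pF_ne_zero ((cl_hit hR k r φ h).ne_zero h0)

end

end Pool.Agent.Helper91.Rk
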