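import Mathlib
import Pool.Agent.Helper91.Rk.Kill

/-!
# Parameters of a read-`k` formula with respect to few variables
-/

set_option autoImplicit false
set_option linter.unusedSectionVars false

namespace Pool.Agent.Helper91.Rk

open MvPolynomial
open Pool.Agent.Helper91.Ov (Supp)

variable {n : ℕ}

namespace Fml

/-- Simpler formulas without the variables of `T`. -/
def Lo (b : ℕ) (T : Finset (Fin n)) (φ ψ : Fml n) : Prop :=
  Loc b ψ ∧ (∀ v, reads ψ v ≤ reads φ v) ∧ rank ψ ≤ rank φ ∧ ∀ t ∈ T, reads ψ t = 0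

theorem loc_const (b : ℕ) (c : ℂ) : Loc b (leaf (C c) : Fml n) := by
  rw [Loc, vars_C, Finset.card_empty]
  exact Nat.zero_le b

theorem lo_const (b : ℕ) (T : Finset (Fin n)) (φ : Fml n) (c : ℂ) : Lo b T φ (leaf (C c)) := by
  refine ⟨loc_const b c, fun v => ?_, ?_, fun t _ => reads_leaf_const c t⟩
  · rw [reads_leaf_const]
    exact Nat.zero_le _
  · rw [rank]
    exact Nat.zero_le _

theorem rank_le_add_left (φ ψ : Fml n) : rank φ ≤ rank (add φ ψ) := by
  rw [rank]
  split_ifs <;> omega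

theorem rank_le_add_right (φ ψ : Fml n) : rank ψ ≤ rank (add φ ψ) := by
  rw [rank]
  split_ifs <;> omega

theorem rank_le_mul_left (φ ψ : Fml n) : rank φ ≤ rank (mul φ ψ) := by
  rw [rank]
  split_ifs <;> omega

theorem rank_le_mul_right (φ ψ : Fml n) : rank ψ ≤ rank (mul φ ψ) := by
  rw [rank]
  split_ifs <;> omega

theorem Lo.addl {b : ℕ} {T : Finset (Fin n)} {φ ψ : Fml n} (h : Lo b T φ ψ) (χ : Fml n) :
    Lo b T (add φ χ) ψ :=
  ⟨h.1, fun v => (h.2.1 v).trans (by rw [reads]; exact Nat.le_add_right _ _),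
    h.2.2.1.trans (rank_le_add_left φ χ), h.2.2.2⟩

theorem Lo.addr {b : ℕ} {T : Finset (Fin n)} {φ ψ : Fml n} (h : Lo b T φ ψ) (χ : Fml n) :
    Lo b T (add χ φ) ψ :=
  ⟨h.1, fun v => (h.2.1 v).trans (by rw [reads]; exact Nat.le_add_left _ _),
    h.2.2.1.trans (rank_le_add_right χ φ), h.2.2.2⟩

theorem Lo.mull {b : ℕ} {T : Finset (Fin n)} {φ ψ : Fml n} (h : Lo b T φ ψ) (χ : Fml n) :
    Lo b T (mul φ χ) ψ :=
  ⟨h.1, fun v => (h.2.1 v).trans (by rw [reads]; exact Nat.le_add_right _ _),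
    h.2.2.1.trans (rank_le_mul_left φ χ), h.2.2.2⟩

theorem Lo.mulr {b : ℕ} {T : Finset (Fin n)} {φ ψ : Fml n} (h : Lo b T φ ψ) (χ : Fml n) :
    Lo b T (mul χ φ) ψ :=
  ⟨h.1, fun v => (h.2.1 v).trans (by rw [reads]; exact Nat.le_add_left _ _),
    h.2.2.1.trans (rank_le_mul_right χ φ), h.2.2.2⟩

/-- The number of occurrences of variables of `T`. -/
noncomputable def tau (T : Finset (Fin n)) (φ : Fml n) : ℕ := ∑ v ∈ T, reads φ v

theorem tau_eq_zero {T : Finset (Fin n)} {φ : Fml n} : tau T φ = 0 ↔ ∀ t ∈ T, reads φ t = 0 :=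
  Finset.sum_eq_zero_iff

theorem tau_add (T : Finset (Fin n)) (φ ψ : Fml n) : tau T (add φ ψ) = tau T φ + tau T ψ := by
  rw [tau, tau, tau, ← Finset.sum_add_distrib]
  exact Finset.sum_congr rfl fun v _ => reads_add φ ψ v

theorem tau_mul (T : Finset (Fin n)) (φ ψ : Fml n) : tau T (mul φ ψ) = tau T φ + tau T ψ := by
  rw [tau, tau, tau, ← Finset.sum_add_distrib]
  exact Finset.sum_congr rfl fun v _ => reads_mul φ ψ v

/-- The algebra generated by the values of a list of formulas and the variables of `T`. -/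
noncomputable def ad (T : Finset (Fin n)) (l : List (Fml n)) :
    Subalgebra ℂ (MvPolynomial (Fin n) ℂ) :=
  Algebra.adjoin ℂ ({g | ∃ ψ ∈ l, ψ.val = g} ∪ (fun v => (X v : MvPolynomial (Fin n) ℂ)) '' T)

theorem ad_mono {T : Finset (Fin n)} {l l' : List (Fml n)} (h : ∀ ψ ∈ l, ψ ∈ l') :
    ad T l ≤ ad T l' := by
  apply Algebra.adjoin_mono
  rintro g (⟨ψ, h1, h2⟩ | hg)
  · exact Or.inl ⟨ψ, h ψ h1, h2⟩
  · exact Or.inr hg

theorem val_mem_ad {T : Finset (Fin n)} {l : List (Fml n)} {ψ : Fml n} (h : ψ ∈ l) :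
    ψ.val ∈ ad T l := Algebra.subset_adjoin (Or.inl ⟨ψ, h, rfl⟩)

theorem lo_params (b : ℕ) (T : Finset (Fin n)) (φ : Fml n) (hφ : Loc b φ) (h0 : 1 ≤ tau T φ) :
    ∃ (v : ℂ → Fml n) (α β h : MvPolynomial (Fin n) ℂ) (l : List (Fml n)),
      (∀ c, Lo b T φ (v c) ∧ (v c).val = α * C c + β) ∧ φ.val = α * h + β ∧
      (∀ ψ ∈ l, Lo b T φ ψ) ∧ h ∈ ad T l ∧ l.length + 2 ≤ (b + 2) * (2 * tau T φ - 1) := by
  classical
  induction φ with
  | leaf f =>
    rw [Loc] at hφ
    refine ⟨fun c => leaf (C c), 1, 0, f, (f.vars \ T).toList.map fun v => leaf (X v), ?_, ?_, ?_,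
      ?_, ?_⟩
    · intro c
      refine ⟨lo_const b T _ c, ?_⟩
      rw [val, one_mul, add_zero]
    · rw [val, one_mul, add_zero]
    · intro ψ hψ
      obtain ⟨v, hv, rfl⟩ := List.mem_map.1 hψ
      rw [Finset.mem_toList, Finset.mem_sdiff] at hv
      refine ⟨?_, ?_, ?_, ?_⟩
      · rw [Loc, vars_X, Finset.card_singleton]
        exact (Finset.card_pos.2 ⟨v, hv.1⟩).trans_le hφ
      · intro w
        rw [reads, reads, vars_X]
        by_cases hw : w ∈ ({v} : Finset (Fin n))
        · rw [if_pos hw, if_pos (Finset.mem_singleton.1 hw ▸ hv.1)]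
        · rw [if_neg hw]
          exact Nat.zero_le _
      · rw [rank, rank]
      · intro t ht
        rw [reads, vars_X, if_neg]
        intro h
        exact hv.2 (Finset.mem_singleton.1 h ▸ ht)
    · have h1 : supported ℂ (f.vars : Set (Fin n)) ≤
          ad T ((f.vars \ T).toList.map fun v => leaf (X v)) := by
        apply Algebra.adjoin_le
        rintro _ ⟨i, hi, rfl⟩
        by_cases hiT : i ∈ T
        · exact Algebra.subset_adjoin (Or.inr ⟨i, Finset.mem_coe.2 hiT, rfl⟩)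
        · refine Algebra.subset_adjoin (Or.inl ⟨leaf (X i), ?_, ?_⟩)
          · rw [List.mem_map]
            exact ⟨i, Finset.mem_toList.2 (Finset.mem_sdiff.2 ⟨Finset.mem_coe.1 hi, hiT⟩), rfl⟩
          · rw [val]
      exact h1 (supp_vars f)
    · rw [List.length_map, Finset.length_toList]
      have h1 : (f.vars \ T).card ≤ b := (Finset.card_le_card Finset.sdiff_subset).trans hφ
      have h2 : (b + 2) * 1 ≤ (b + 2) * (2 * tau T (leaf f) - 1) :=
        Nat.mul_le_mul_left _ (by omega)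
      omega
  | add φ ψ ihφ ihψ =>
    rw [Loc] at hφ
    rw [tau_add] at h0 ⊢
    rcases Nat.eq_zero_or_pos (tau T φ) with h1 | h1
    · obtain ⟨v, α, β, h, l, g1, g2, g3, g4, g5⟩ := ihψ hφ.2 (by omega)
      rw [tau_eq_zero] at h1
      refine ⟨fun c => add φ (v c), α, β + φ.val, h, l, ?_, ?_, fun χ hχ => (g3 χ hχ).addr φ, g4,
        ?_⟩
      · intro c
        obtain ⟨⟨a1, a2, a3, a4⟩, a5⟩ := g1 c
        refine ⟨⟨?_, ?_, rank_add_le (fun _ => le_rfl) a2 le_rfl a3, ?_⟩, ?_⟩
        · rw [Loc]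
          exact ⟨hφ.1, a1⟩
        · intro w
          rw [reads, reads]
          exact Nat.add_le_add_left (a2 w) _
        · intro t ht
          rw [reads, h1 t ht, a4 t ht]
        · rw [val, a5]
          ring
      · rw [val, g2]
        ring
      · have := tau_eq_zero.2 h1
        rw [this, zero_add]
        exact g5
    rcases Nat.eq_zero_or_pos (tau T ψ) with h2 | h2
    · obtain ⟨v, α, β, h, l, g1, g2, g3, g4, g5⟩ := ihφ hφ.1 (by omega)
      rw [tau_eq_zero] at h2
      refine ⟨fun c => add (v c) ψ, α, β + ψ.val, h, l, ?_, ?_, fun χ hχ => (g3 χ hχ).addl ψ, g4,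
        ?_⟩
      · intro c
        obtain ⟨⟨a1, a2, a3, a4⟩, a5⟩ := g1 c
        refine ⟨⟨?_, ?_, rank_add_le a2 (fun _ => le_rfl) a3 le_rfl, ?_⟩, ?_⟩
        · rw [Loc]
          exact ⟨a1, hφ.2⟩
        · intro w
          rw [reads, reads]
          exact Nat.add_le_add_right (a2 w) _
        · intro t ht
          rw [reads, h2 t ht, a4 t ht]
        · rw [val, a5]
          ring
      · rw [val, g2]
        ring
      · have := tau_eq_zero.2 h2
        rw [this, add_zero]
        exact g5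
    obtain ⟨v, α, β, h, l, g1, g2, g3, g4, g5⟩ := ihφ hφ.1 h1
    obtain ⟨v', α', β', h', l', g1', g2', g3', g4', g5'⟩ := ihψ hφ.2 h2
    refine ⟨fun c => leaf (C c), 1, 0, (add φ ψ).val, [v 0, v 1] ++ l ++ ([v' 0, v' 1] ++ l'), ?_,
      ?_, ?_, ?_, ?_⟩
    · intro c
      refine ⟨lo_const b T _ c, ?_⟩
      rw [val, one_mul, add_zero]
    · rw [one_mul, add_zero]
    · intro χ hχ
      rcases List.mem_append.1 hχ with hχ | hχ
      · rcases List.mem_append.1 hχ with hχ | hχ
        · have h3 : χ = v 0 ∨ χ = v 1 := by simpa using hχ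
          rcases h3 with rfl | rfl
          · exact (g1 0).1.addl ψ
          · exact (g1 1).1.addl ψ
        · exact (g3 χ hχ).addl ψ
      · rcases List.mem_append.1 hχ with hχ | hχ
        · have h3 : χ = v' 0 ∨ χ = v' 1 := by simpa using hχ
          rcases h3 with rfl | rfl
          · exact (g1' 0).1.addr φ
          · exact (g1' 1).1.addr φ
        · exact (g3' χ hχ).addr φ
    · have h3 : φ.val ∈ ad T ([v 0, v 1] ++ l ++ ([v' 0, v' 1] ++ l')) := by
        have e : φ.val = ((v 1).val - (v 0).val) * h + (v 0).val := by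
          rw [g2, (g1 1).2, (g1 0).2, C_1, C_0]
          ring
        rw [e]
        have h4 : (v 0).val ∈ ad T ([v 0, v 1] ++ l ++ ([v' 0, v' 1] ++ l')) :=
          val_mem_ad (by simp)
        have h5 : (v 1).val ∈ ad T ([v 0, v 1] ++ l ++ ([v' 0, v' 1] ++ l')) :=
          val_mem_ad (by simp)
        have h6 : h ∈ ad T ([v 0, v 1] ++ l ++ ([v' 0, v' 1] ++ l')) :=
          ad_mono (fun χ hχ => List.mem_append_left _ (List.mem_append_right _ hχ)) g4
        exact add_mem (mul_mem (sub_mem h5 h4) h6) h4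
      have h3' : ψ.val ∈ ad T ([v 0, v 1] ++ l ++ ([v' 0, v' 1] ++ l')) := by
        have e : ψ.val = ((v' 1).val - (v' 0).val) * h' + (v' 0).val := by
          rw [g2', (g1' 1).2, (g1' 0).2, C_1, C_0]
          ring
        rw [e]
        have h4 : (v' 0).val ∈ ad T ([v 0, v 1] ++ l ++ ([v' 0, v' 1] ++ l')) :=
          val_mem_ad (by simp)
        have h5 : (v' 1).val ∈ ad T ([v 0, v 1] ++ l ++ ([v' 0, v' 1] ++ l')) :=
          val_mem_ad (by simp)
        have h6 : h' ∈ ad T ([v 0, v 1] ++ l ++ ([v' 0, v' 1] ++ l')) :=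
          ad_mono (fun χ hχ => List.mem_append_right _ (List.mem_append_right _ hχ)) g4'
        exact add_mem (mul_mem (sub_mem h5 h4) h6) h4
      rw [val]
      exact add_mem h3 h3'
    · simp only [List.length_append, List.length_cons, List.length_nil]
      have e1 : 2 * (tau T φ + tau T ψ) - 1 = (2 * tau T φ - 1) + (2 * tau T ψ - 1) + 1 := by
        omega
      rw [e1, mul_add, mul_add, mul_one]
      omega
  | mul φ ψ ihφ ihψ =>
    rw [Loc] at hφ
    rw [tau_mul] at h0 ⊢
    rcases Nat.eq_zero_or_pos (tau T φ) with h1 | h1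
    · obtain ⟨v, α, β, h, l, g1, g2, g3, g4, g5⟩ := ihψ hφ.2 (by omega)
      rw [tau_eq_zero] at h1
      refine ⟨fun c => mul φ (v c), α * φ.val, β * φ.val, h, l, ?_, ?_,
        fun χ hχ => (g3 χ hχ).mulr φ, g4, ?_⟩
      · intro c
        obtain ⟨⟨a1, a2, a3, a4⟩, a5⟩ := g1 c
        refine ⟨⟨?_, ?_, rank_mul_le le_rfl a3, ?_⟩, ?_⟩
        · rw [Loc]
          exact ⟨hφ.1, a1⟩
        · intro w
          rw [reads, reads]
          exact Nat.add_le_add_left (a2 w) _
        · intro t ht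
          rw [reads, h1 t ht, a4 t ht]
        · rw [val, a5]
          ring
      · rw [val, g2]
        ring
      · have := tau_eq_zero.2 h1
        rw [this, zero_add]
        exact g5
    rcases Nat.eq_zero_or_pos (tau T ψ) with h2 | h2
    · obtain ⟨v, α, β, h, l, g1, g2, g3, g4, g5⟩ := ihφ hφ.1 (by omega)
      rw [tau_eq_zero] at h2
      refine ⟨fun c => mul (v c) ψ, α * ψ.val, β * ψ.val, h, l, ?_, ?_,
        fun χ hχ => (g3 χ hχ).mull ψ, g4, ?_⟩
      · intro c
        obtain ⟨⟨a1, a2, a3, a4⟩, a5⟩ := g1 c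
        refine ⟨⟨?_, ?_, rank_mul_le a3 le_rfl, ?_⟩, ?_⟩
        · rw [Loc]
          exact ⟨a1, hφ.2⟩
        · intro w
          rw [reads, reads]
          exact Nat.add_le_add_right (a2 w) _
        · intro t ht
          rw [reads, h2 t ht, a4 t ht]
        · rw [val, a5]
          ring
      · rw [val, g2]
        ring
      · have := tau_eq_zero.2 h2
        rw [this, add_zero]
        exact g5
    obtain ⟨v, α, β, h, l, g1, g2, g3, g4, g5⟩ := ihφ hφ.1 h1
    obtain ⟨v', α', β', h', l', g1', g2', g3', g4', g5'⟩ := ihψ hφ.2 h2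
    refine ⟨fun c => leaf (C c), 1, 0, (mul φ ψ).val, [v 0, v 1] ++ l ++ ([v' 0, v' 1] ++ l'), ?_,
      ?_, ?_, ?_, ?_⟩
    · intro c
      refine ⟨lo_const b T _ c, ?_⟩
      rw [val, one_mul, add_zero]
    · rw [one_mul, add_zero]
    · intro χ hχ
      rcases List.mem_append.1 hχ with hχ | hχ
      · rcases List.mem_append.1 hχ with hχ | hχ
        · have h3 : χ = v 0 ∨ χ = v 1 := by simpa using hχ
          rcases h3 with rfl | rfl
          · exact (g1 0).1.mull ψ
          · exact (g1 1).1.mull ψ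
        · exact (g3 χ hχ).mull ψ
      · rcases List.mem_append.1 hχ with hχ | hχ
        · have h3 : χ = v' 0 ∨ χ = v' 1 := by simpa using hχ
          rcases h3 with rfl | rfl
          · exact (g1' 0).1.mulr φ
          · exact (g1' 1).1.mulr φ
        · exact (g3' χ hχ).mulr φ
    · have h3 : φ.val ∈ ad T ([v 0, v 1] ++ l ++ ([v' 0, v' 1] ++ l')) := by
        have e : φ.val = ((v 1).val - (v 0).val) * h + (v 0).val := by
          rw [g2, (g1 1).2, (g1 0).2, C_1, C_0]
          ring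
        rw [e]
        have h4 : (v 0).val ∈ ad T ([v 0, v 1] ++ l ++ ([v' 0, v' 1] ++ l')) :=
          val_mem_ad (by simp)
        have h5 : (v 1).val ∈ ad T ([v 0, v 1] ++ l ++ ([v' 0, v' 1] ++ l')) :=
          val_mem_ad (by simp)
        have h6 : h ∈ ad T ([v 0, v 1] ++ l ++ ([v' 0, v' 1] ++ l')) :=
          ad_mono (fun χ hχ => List.mem_append_left _ (List.mem_append_right _ hχ)) g4
        exact add_mem (mul_mem (sub_mem h5 h4) h6) h4
      have h3' : ψ.val ∈ ad T ([v 0, v 1] ++ l ++ ([v' 0, v' 1] ++ l')) := by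
        have e : ψ.val = ((v' 1).val - (v' 0).val) * h' + (v' 0).val := by
          rw [g2', (g1' 1).2, (g1' 0).2, C_1, C_0]
          ring
        rw [e]
        have h4 : (v' 0).val ∈ ad T ([v 0, v 1] ++ l ++ ([v' 0, v' 1] ++ l')) :=
          val_mem_ad (by simp)
        have h5 : (v' 1).val ∈ ad T ([v 0, v 1] ++ l ++ ([v' 0, v' 1] ++ l')) :=
          val_mem_ad (by simp)
        have h6 : h' ∈ ad T ([v 0, v 1] ++ l ++ ([v' 0, v' 1] ++ l')) :=
          ad_mono (fun χ hχ => List.mem_append_right _ (List.mem_append_right _ hχ)) g4'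
        exact add_mem (mul_mem (sub_mem h5 h4) h6) h4
      rw [val]
      exact mul_mem h3 h3'
    · simp only [List.length_append, List.length_cons, List.length_nil]
      have e1 : 2 * (tau T φ + tau T ψ) - 1 = (2 * tau T φ - 1) + (2 * tau T ψ - 1) + 1 := by
        omega
      rw [e1, mul_add, mul_add, mul_one]
      omega

theorem cl_params {k b r : ℕ} (T : Finset (Fin n)) {φ : Fml n} (hφ : Cl k b r φ) :
    ∃ l : List (Fml n), l.length ≤ 2 * (b + 2) * (k * T.card) + 1 ∧
      (∀ ψ ∈ l, Cl k b r ψ ∧ ∀ t ∈ T, reads ψ t = 0) ∧ φ.val ∈ ad T l := by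
  have hlo : ∀ ψ, Lo b T φ ψ → Cl k b r ψ ∧ ∀ t ∈ T, reads ψ t = 0 := fun ψ h =>
    ⟨⟨h.1, fun v => (h.2.1 v).trans (hφ.2.1 v), h.2.2.1.trans hφ.2.2⟩, h.2.2.2⟩
  rcases Nat.eq_zero_or_pos (tau T φ) with h0 | h0
  · refine ⟨[φ], ?_, ?_, val_mem_ad (List.mem_singleton_self φ)⟩
    · rw [List.length_singleton]
      exact Nat.le_add_left _ _
    · intro ψ hψ
      rw [List.mem_singleton.1 hψ]
      exact ⟨hφ, tau_eq_zero.1 h0⟩
  · obtain ⟨v, α, β, h, l, g1, g2, g3, g4, g5⟩ := lo_params b T φ hφ.1 h0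
    refine ⟨[v 0, v 1] ++ l, ?_, ?_, ?_⟩
    · have h1 : tau T φ ≤ k * T.card := by
        rw [tau, mul_comm, ← smul_eq_mul]
        exact Finset.sum_le_card_nsmul T _ k fun v _ => hφ.2.1 v
      have h2 : (b + 2) * (2 * tau T φ - 1) ≤ (b + 2) * (2 * (k * T.card)) :=
        Nat.mul_le_mul_left _ (by omega)
      have h3 : (b + 2) * (2 * (k * T.card)) = 2 * (b + 2) * (k * T.card) := by ring
      simp only [List.length_append, List.length_cons, List.length_nil]
      omega
    · intro ψ hψ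
      rcases List.mem_append.1 hψ with hψ | hψ
      · have h3 : ψ = v 0 ∨ ψ = v 1 := by simpa using hψ
        rcases h3 with rfl | rfl
        · exact hlo _ (g1 0).1
        · exact hlo _ (g1 1).1
      · exact hlo _ (g3 ψ hψ)
    · have e : φ.val = ((v 1).val - (v 0).val) * h + (v 0).val := by
        rw [g2, (g1 1).2, (g1 0).2, C_1, C_0]
        ring
      rw [e]
      have h4 : (v 0).val ∈ ad T ([v 0, v 1] ++ l) := val_mem_ad (by simp)
      have h5 : (v 1).val ∈ ad T ([v 0, v 1] ++ l) := val_mem_ad (by simp)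
      have h6 : h ∈ ad T ([v 0, v 1] ++ l) :=
        ad_mono (fun χ hχ => List.mem_append_right _ hχ) g4
      exact add_mem (mul_mem (sub_mem h5 h4) h6) h4

end Fml

end Pool.Agent.Helper91.Rk
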