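import Mathlib
import Pool.Agent.Helper91.Rk.Level
import Pool.Agent.Helper91.Rk.Par
import Pool.Agent.Helper91.Ov.Final

/-!
# Products of polynomials in few read-`k` formulas of bounded rank
-/

set_option autoImplicit false
set_option linter.unusedSectionVars false

namespace Pool.Agent.Helper91.Rk

open MvPolynomial
open Pool.Agent.Helper28.D4 (G map_G)
open Pool.Agent.Helper62.VT
open Pool.Agent.Helper91.RO (res EA ev pderiv_res)
open Pool.Agent.Helper91.Ov (Supp RP gp pF pF_eq zK wK KP exists_phi split_supp rp_det)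
open Fml

variable {n : ℕ}

section

variable (b : ℕ) (wk : ℕ → ℕ) (bk : ℕ → ℕ → ℕ)

/-- The support bound. -/
def supp (k M : ℕ) : ℕ :=
  M + (fun N => bk k N + 1)^[M * M] (M.factorial * (2 * wk k) ^ M)

/-- The number of vectors. -/
def KR (k r M : ℕ) : ℕ := supp wk bk k M + lev b wk bk k r

/-- The number of parameters. -/
def par (k r : ℕ) : ℕ := 2 * (b + 2) * (k * r) + 1

variable {b wk bk}

theorem supp_mono {k t M : ℕ} (hw : 1 ≤ wk k) (hb : Monotone (bk k)) (hle : ∀ N, N ≤ bk k N)
    (h : t ≤ M) : supp wk bk k t ≤ supp wk bk k M := by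
  refine Nat.add_le_add h ?_
  have hm : Monotone fun N => bk k N + 1 := fun a b hab => Nat.succ_le_succ (hb hab)
  calc (fun N => bk k N + 1)^[t * t] (t.factorial * (2 * wk k) ^ t)
      ≤ (fun N => bk k N + 1)^[t * t] (M.factorial * (2 * wk k) ^ M) :=
        hm.iterate _ (Nat.mul_le_mul (Nat.factorial_le h) (Nat.pow_le_pow_right (by omega) h))
    _ ≤ (fun N => bk k N + 1)^[M * M] (M.factorial * (2 * wk k) ^ M) :=
        Function.monotone_iterate_of_id_le
          (fun N => (hle N).trans (Nat.le_succ _)) (Nat.mul_le_mul h h) _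

/-- Algebraically independent formulas stay independent. -/
theorem algInd_res (hR : Ram b wk bk) {k r : ℕ} {F : Type} [Field F] [Algebra ℂ F]
    (p : Fin n → F) (hp : ∀ φ : Fml n, Cl k b r φ → φ.val ≠ 0 → aeval p φ.val ≠ 0) {t : ℕ}
    (c : Fin t → Fml n) (hc : ∀ i, Cl k b r (c i))
    (hi : AlgebraicIndependent ℂ fun i => (c i).val) :
    ∃ S : Finset (Fin n), S.card ≤ supp wk bk k t ∧
      AlgebraicIndependent F fun i => res p S (c i).val := by
  classical
  have : CharZero F := charZero_of_injective_algebraMap (algebraMap ℂ F).injective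
  obtain ⟨e, hdet⟩ := Pool.Agent.Helper93.D4.jac_of_algInd (fun i => (c i).val) hi
  have h1 := rp_det p (Matrix.of fun i j => MvPolynomial.pderiv (e j) (c i).val) (fun i j =>
    RP.pderiv p (hR n F p k r hp (c i) (hc i)) (e j))
  obtain ⟨S, h2, h3, h4⟩ := h1.bounded_support p hdet (Finset.univ.image e)
  refine ⟨S, h3.trans (Nat.add_le_add_right ?_ _), ?_⟩
  · refine Finset.card_image_le.trans ?_
    rw [Finset.card_univ, Fintype.card_fin]
  · apply Pool.Agent.Helper91.SW.algInd_of_minor (fun i => res p S (c i).val) e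
    rw [AlgHom.map_det] at h4
    intro h0
    apply h4
    rw [← h0]
    congr 1
    ext1 i j
    rw [AlgHom.mapMatrix_apply, Matrix.map_apply, Matrix.of_apply, Matrix.of_apply, pderiv_res]
    exact h2 (Finset.mem_image_of_mem e (Finset.mem_univ j))

theorem cl_zero (k r : ℕ) : Cl k b r (leaf (C 0) : Fml n) := by
  refine ⟨loc_const b 0, fun v => ?_, ?_⟩
  · rw [reads_leaf_const]
    exact Nat.zero_le k
  · rw [rank]
    exact Nat.zero_le r

/-- The class of polynomials. -/
def Q (k b r : ℕ) (f : MvPolynomial (Fin n) ℂ) : Prop := ∃ φ : Fml n, Cl k b r φ ∧ φ.val = f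

theorem Q_zero (k r : ℕ) : Q (n := n) k b r 0 :=
  ⟨leaf (C 0), cl_zero k r, by rw [val, C_0]⟩

theorem rk_faithful (hR : Ram b wk bk) {k r : ℕ} (hw : 1 ≤ wk k) (hb : Monotone (bk k))
    (hle : ∀ N, N ≤ bk k N) (n M : ℕ) (c : Fin M → MvPolynomial (Fin n) ℂ)
    (hc : ∀ j, Q k b r (c j)) (H : MvPolynomial (Fin M) ℂ) (h : aeval c H ≠ 0) :
    spec n (KR b wk bk k r M) (fun _ => 0) (aeval c H) ≠ 0 := by
  obtain ⟨t, ht, s, hs, B, g, hB, hBg⟩ := Pool.Agent.Helper28.D4.norm_trick (r := M) c (by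
    intro s hs
    have : Function.Injective s := fun i j hij => hs.injective (by simp [hij])
    have := Fintype.card_le_of_injective s this
    simp at this) H h
  choose φ0 hφ0 hval using hc
  have hs' : AlgebraicIndependent ℂ fun i => (φ0 (s i)).val := by
    have e : (fun i => (φ0 (s i)).val) = fun i => c (s i) := funext fun i => hval (s i)
    rw [e]
    exact hs
  obtain ⟨S, hS1, hS2⟩ := algInd_res hR (pF n (lev b wk bk k r)) (fun φ h h0 => cl_hp hR φ h h0)
    (fun i => φ0 (s i)) (fun i => hφ0 (s i)) hs'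
  have hS3 : S.card ≤ supp wk bk k M := hS1.trans (supp_mono hw hb hle ht)
  obtain ⟨φ, hφ⟩ := exists_phi S hS3 (fun j : Fin (lev b wk bk k r) => zK j) (fun j => wK j)
  rw [← pF_eq] at hφ
  intro h0
  have h1 : res (pF n (lev b wk bk k r)) S (aeval c H) = 0 := by
    rw [← hφ]
    have e : spec n (supp wk bk k M + lev b wk bk k r) (fun _ => 0) (aeval c H) = 0 := h0
    rw [e, map_zero]
  have h2 := congrArg (res (pF n (lev b wk bk k r)) S) hBg
  rw [map_mul, h1, zero_mul, MvPolynomial.comp_aeval_apply] at h2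
  have h3 : aeval (fun i => res (pF n (lev b wk bk k r)) S (φ0 (s i)).val)
      (map (algebraMap ℂ (KP (lev b wk bk k r))) B) = 0 := by
    rw [aeval_map_algebraMap]
    have e : (fun i => res (pF n (lev b wk bk k r)) S (φ0 (s i)).val) =
        fun i => res (pF n (lev b wk bk k r)) S (c (s i)) := funext fun i => by rw [hval (s i)]
    rw [e]
    exact h2
  rw [algebraicIndependent_iff] at hS2
  have h4 := hS2 _ h3
  exact hB (MvPolynomial.map_injective _ (algebraMap ℂ (KP (lev b wk bk k r))).injective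
    (h4.trans (map_zero _).symm))

/-- The parameters of a formula. -/
theorem rk_split {k ρ r : ℕ} {e : Fin r → Fin n} (he : Function.Injective e)
    {A : MvPolynomial (Fin n) ℂ} (hA : Q k b ρ A) :
    ∃ γ : Fin (par b k r) → MvPolynomial (Fin n) ℂ, (∀ j, Q k b ρ (γ j)) ∧
      split e (X : Fin n → MvPolynomial (Fin n) ℂ) A ∈
        W r (Algebra.adjoin ℂ (Set.range γ)) := by
  classical
  obtain ⟨φ, hφ, rfl⟩ := hA
  obtain ⟨l, h1, h2, h3⟩ := cl_params (Finset.univ.image e) hφ
  have hl : l.length ≤ par b k r := by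
    refine h1.trans (Nat.succ_le_succ (Nat.mul_le_mul_left _ (Nat.mul_le_mul_left _ ?_)))
    refine Finset.card_image_le.trans ?_
    rw [Finset.card_univ, Fintype.card_fin]
  let γ : Fin (par b k r) → MvPolynomial (Fin n) ℂ := fun j => (l.getD j (leaf (C 0))).val
  have hγ : ∀ g ∈ l, ∃ j, γ j = g.val := by
    intro g hg
    obtain ⟨i, hi, rfl⟩ := List.getElem_of_mem hg
    refine ⟨⟨i, lt_of_lt_of_le hi hl⟩, ?_⟩
    exact congrArg val (List.getD_eq_getElem l (leaf (C 0)) hi)
  refine ⟨γ, ?_, ?_⟩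
  · intro j
    by_cases hj : (j : ℕ) < l.length
    · have e1 : l.getD j (leaf (C 0)) = l[(j : ℕ)] := List.getD_eq_getElem l (leaf (C 0)) hj
      exact ⟨l[(j : ℕ)], (h2 _ (List.getElem_mem hj)).1, (congrArg val e1).symm⟩
    · have e1 : l.getD j (leaf (C 0)) = leaf (C 0) :=
        List.getD_eq_default l (leaf (C 0)) (not_lt.1 hj)
      exact ⟨leaf (C 0), cl_zero k ρ, (congrArg val e1).symm⟩
  · have hle : ad (Finset.univ.image e) l ≤
        (W r (Algebra.adjoin ℂ (Set.range γ))).comap
          (split e (X : Fin n → MvPolynomial (Fin n) ℂ)) := by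
      apply Algebra.adjoin_le
      rintro g (⟨ψ, hψ, rfl⟩ | ⟨w, hw, rfl⟩)
      · obtain ⟨-, hψT⟩ := h2 ψ hψ
        change split e (X : Fin n → MvPolynomial (Fin n) ℂ) ψ.val ∈
          W r (Algebra.adjoin ℂ (Set.range γ))
        have hd : Disjoint (Finset.univ.filter fun v => reads ψ v ≠ 0)
            (Finset.univ.image e) := by
          rw [Finset.disjoint_left]
          intro v hv hv'
          exact (Finset.mem_filter.1 hv).2 (hψT v hv')
        rw [split_supp (supp_val ψ) hd]
        obtain ⟨j, hj⟩ := hγ ψ hψ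
        exact C_mem_W (Algebra.subset_adjoin ⟨j, hj⟩)
      · obtain ⟨j, -, rfl⟩ := Finset.mem_image.1 (Finset.mem_coe.1 hw)
        change split e (X : Fin n → MvPolynomial (Fin n) ℂ) (X (e j)) ∈
          W r (Algebra.adjoin ℂ (Set.range γ))
        rw [split_X_mem he]
        exact X_mem_W _ j
    exact hle h3

/-- The factors. -/
def RkFactors (n k b ρ κ : ℕ) : Set (MvPolynomial (Fin n) ℂ) :=
  {f | ∃ (A : Fin κ → MvPolynomial (Fin n) ℂ) (F : MvPolynomial (Fin κ) ℂ),
    (∀ j, Q k b ρ (A j)) ∧ f = aeval A F}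

theorem rk_hits (hR : Ram b wk bk) {k ρ : ℕ} (hw : 1 ≤ wk k) (hb : Monotone (bk k))
    (hle : ∀ N, N ≤ bk k N) {m r κ d : ℕ} (P : Fin m → MvPolynomial (Fin n) ℂ)
    (hP : ∀ i, P i ∈ Submonoid.closure (RkFactors n k b ρ κ))
    (hr : ∀ s : Fin (r + 1) → Fin m, ¬ AlgebraicIndependent ℂ fun i => P (s i))
    (g : MvPolynomial (Fin m) ℂ) (h0 : aeval P g ≠ 0) (hd : (aeval P g).totalDegree ≤ d) :
    ∃ a ∈ gpts n (r + KR b wk bk k ρ ((r + 1) * (κ * par b k r))) (d * n),
      eval (fun l => ((a l : ℤ) : ℂ)) (aeval P g) ≠ 0 := by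
  classical
  obtain ⟨ε, hε, h⟩ := exists_point (M := KR b wk bk k ρ ((r + 1) * (κ * par b k r))) (D := 0) P
    hr g h0 hd {fun _ => 0} (by
      rintro ε rfl l
      rw [Polynomial.natDegree_zero]) (b := d * n) (by
      rw [zero_add]) (by
      intro r' hr' t ht e he
      have hL : ∀ i, ∃ L : List (MvPolynomial (Fin n) ℂ), (∀ q ∈ L, q ∈ RkFactors n k b ρ κ) ∧
          P (t i) = L.prod := fun i => by
        obtain ⟨L, hL, h⟩ := Submonoid.exists_list_of_mem_closure (hP (t i))
        exact ⟨L, hL, h.symm⟩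
      choose L hL1 hL2 using hL
      obtain ⟨B, hB1, hB2, f, mm, hf0, hfL, hfP, -⟩ :=
        exists_factorization (fun i => P (t i)) L hL2 ht
      refine ⟨B, hB1, hB2, f, mm, hf0, hfP, ?_⟩
      have hfac : ∀ b', f b' ∈ RkFactors n k b ρ κ := by
        intro b'
        obtain ⟨i, hi⟩ := hfL b'
        exact hL1 i _ hi
      choose A F hA hfA using hfac
      have hγ : ∀ b' j, ∃ γ : Fin (par b k r') → MvPolynomial (Fin n) ℂ,
          (∀ j, Q k b ρ (γ j)) ∧
          split e (X : Fin n → MvPolynomial (Fin n) ℂ) (A b' j) ∈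
            W r' (Algebra.adjoin ℂ (Set.range γ)) :=
        fun b' j => rk_split he (hA b' j)
      choose γ hγ1 hγ2 using hγ
      let γ' : B → Fin (κ * par b k r') → MvPolynomial (Fin n) ℂ := fun b' x =>
        γ b' (finProdFinEquiv.symm x).1 (finProdFinEquiv.symm x).2
      refine ⟨fun b' => Set.range (γ' b'), ?_, fun _ => 0, rfl, ?_⟩
      · intro b' k'
        rw [hfA b']
        apply coeff_split_aeval
        intro j
        refine W_mono (Algebra.adjoin_mono ?_) (hγ2 b' j)
        rintro _ ⟨i, rfl⟩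
        refine ⟨finProdFinEquiv (j, i), ?_⟩
        change γ b' (finProdFinEquiv.symm (finProdFinEquiv (j, i))).1
          (finProdFinEquiv.symm (finProdFinEquiv (j, i))).2 = γ b' j i
        rw [Equiv.symm_apply_apply]
      · intro T hT
        exact faithful_of_tuple _ (Q := fun f => Q k b ρ f) (Q_zero k ρ) γ'
          (fun b' x => hγ1 b' _ _) (t := r' + 1)
          (Nat.mul_le_mul (Nat.succ_le_succ hr') (Nat.mul_le_mul_left κ
            (Nat.succ_le_succ (Nat.mul_le_mul_left _ (Nat.mul_le_mul_left _ hr')))))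
          (fun c hc H hH => rk_faithful hR hw hb hle n _ c hc H hH) T hT)
  rw [Set.mem_singleton_iff] at hε
  subst hε
  obtain ⟨a, ha, hne⟩ := h
  refine ⟨a, pts_zero_subset _ _ _ ?_, hne⟩
  have e : (fun l : Fin n => (0 : Polynomial ℤ).eval) = fun _ _ => (0 : ℤ) := by
    funext l x
    exact Polynomial.eval_zero
  rw [← e]
  exact ha

end

end Pool.Agent.Helper91.Rk
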