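import Mathlib
import Pool.Agent.Helper91.Rk.Kill

/-!
# The rank is at most logarithmic
-/

set_option autoImplicit false
set_option linter.unusedSectionVars false

namespace Pool.Agent.Helper91.Rk

open MvPolynomial

variable {n : ℕ}

namespace Fml

open Classical in
/-- The number of leaves with variables. -/
noncomputable def leaves : Fml n → ℕ
  | leaf f => if f.vars = ∅ then 0 else 1
  | add φ ψ => leaves φ + leaves ψ
  | mul φ ψ => leaves φ + leaves ψ

theorem leaves_pos {φ : Fml n} {v : Fin n} (h : reads φ v ≠ 0) : 1 ≤ leaves φ := by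
  classical
  induction φ with
  | leaf f =>
    rw [reads] at h
    have h1 : v ∈ f.vars := by
      by_contra h2
      rw [if_neg h2] at h
      exact h rfl
    rw [leaves, if_neg]
    intro h2
    rw [h2] at h1
    exact Finset.notMem_empty v h1
  | add φ ψ h1 h2 =>
    rw [reads] at h
    rw [leaves]
    rcases Nat.eq_zero_or_pos (reads φ v) with h3 | h3
    · have := h2 (by omega)
      omega
    · have := h1 (by omega)
      omega
  | mul φ ψ h1 h2 =>
    rw [reads] at h
    rw [leaves]
    rcases Nat.eq_zero_or_pos (reads φ v) with h3 | h3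
    · have := h2 (by omega)
      omega
    · have := h1 (by omega)
      omega

theorem leaves_le (φ : Fml n) : leaves φ ≤ ∑ v, reads φ v := by
  classical
  induction φ with
  | leaf f =>
    rw [leaves]
    by_cases h : f.vars = ∅
    · rw [if_pos h]
      exact Nat.zero_le _
    · rw [if_neg h]
      obtain ⟨v, hv⟩ := Finset.nonempty_iff_ne_empty.2 h
      refine le_trans ?_ (Finset.single_le_sum (fun v _ => Nat.zero_le (reads (leaf f) v))
        (Finset.mem_univ v))
      rw [reads, if_pos hv]
  | add φ ψ h1 h2 =>
    rw [leaves]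
    have e : ∑ v, reads (add φ ψ) v = ∑ v, reads φ v + ∑ v, reads ψ v := by
      rw [← Finset.sum_add_distrib]
      exact Finset.sum_congr rfl fun v _ => reads_add φ ψ v
    rw [e]
    exact Nat.add_le_add h1 h2
  | mul φ ψ h1 h2 =>
    rw [leaves]
    have e : ∑ v, reads (mul φ ψ) v = ∑ v, reads φ v + ∑ v, reads ψ v := by
      rw [← Finset.sum_add_distrib]
      exact Finset.sum_congr rfl fun v _ => reads_mul φ ψ v
    rw [e]
    exact Nat.add_le_add h1 h2

theorem two_pow_le (φ : Fml n) (h : rank φ ≠ 0) : 2 ^ (rank φ / 2 + 1) ≤ leaves φ := by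
  induction φ with
  | leaf f =>
    rw [rank] at h
    exact absurd rfl h
  | add φ ψ h1 h2 =>
    rw [leaves]
    rw [rank] at h ⊢
    split_ifs at h ⊢ with hd
    · rcases le_total (rank φ) (rank ψ) with h3 | h3
      · rw [max_eq_right h3] at h ⊢
        exact (h2 h).trans (Nat.le_add_left _ _)
      · rw [max_eq_left h3] at h ⊢
        exact (h1 h).trans (Nat.le_add_right _ _)
    · have e : (2 * (max (rank φ) (rank ψ) / 2) + 1) / 2 = max (rank φ) (rank ψ) / 2 := by omega
      rw [e]
      by_cases h3 : max (rank φ) (rank ψ) = 0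
      · rw [h3]
        rw [Disj] at hd
        push Not at hd
        obtain ⟨v, hv1, hv2⟩ := hd
        have h4 := leaves_pos hv1
        have h5 := leaves_pos hv2
        norm_num
        omega
      · rcases le_total (rank φ) (rank ψ) with h4 | h4
        · rw [max_eq_right h4] at h3 ⊢
          exact (h2 h3).trans (Nat.le_add_left _ _)
        · rw [max_eq_left h4] at h3 ⊢
          exact (h1 h3).trans (Nat.le_add_right _ _)
  | mul φ ψ h1 h2 =>
    rw [leaves]
    rw [rank] at h ⊢
    split_ifs at h ⊢ with hd
    · obtain ⟨h3, ρ, h4⟩ := hd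
      have h5 := h1 (by omega)
      have h6 := h2 (by omega)
      have e : (rank φ + 1) / 2 + 1 = (rank φ / 2 + 1) + 1 := by omega
      rw [← h3] at h6
      rw [e, pow_succ]
      omega
    · rcases le_total (rank φ) (rank ψ) with h3 | h3
      · rw [max_eq_right h3] at h ⊢
        exact (h2 h).trans (Nat.le_add_left _ _)
      · rw [max_eq_left h3] at h ⊢
        exact (h1 h).trans (Nat.le_add_right _ _)

/-- The rank is at most twice the logarithm of the number of leaves with variables. -/
theorem rank_le_log (φ : Fml n) : rank φ ≤ 2 * Nat.log 2 (leaves φ) := by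
  by_cases h : rank φ = 0
  · rw [h]
    exact Nat.zero_le _
  · have h1 := two_pow_le φ h
    have h2 : leaves φ ≠ 0 := by
      have := Nat.two_pow_pos (rank φ / 2 + 1)
      omega
    have h3 := Nat.le_log_of_pow_le (by norm_num) h1
    omega

theorem rank_le_log_reads {k : ℕ} {φ : Fml n} (h : ∀ v, reads φ v ≤ k) :
    rank φ ≤ 2 * Nat.log 2 (k * n) := by
  refine (rank_le_log φ).trans (Nat.mul_le_mul_left 2 (Nat.log_mono_right ?_))
  refine (leaves_le φ).trans ?_
  refine (Finset.sum_le_sum fun v _ => h v).trans (le_of_eq ?_)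
  rw [Finset.sum_const, Finset.card_univ, Fintype.card_fin, smul_eq_mul, mul_comm]

end Fml

end Pool.Agent.Helper91.Rk
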